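import Pool.Agent.L0h90.RS.D

/-!
# Reductive operators with log-integrable local resolvents are spectral operators (MP_49c4d9_an)

Let `T` be a reductive operator on a complex Hilbert space (not necessarily separable): every closed
invariant subspace is reducing. A vector `x` has a *log-integrable local resolvent* if there is a
measurable `f : ℂ → H` with `(z - T) f z = x` for almost all `z` (area) and `log⁺ ‖f‖` locally
integrable. Suppose that the vectors of this kind for the adjoint of `T` span a dense subspace. Nothing
is supposed about the spectrum of `T`, which may have positive area and interior, and nothing about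
compactness.

(1) There is a normal operator `N` which commutes with every operator commuting with `T`, such that
`T - N` is locally quasinilpotent at every vector `x` with a log-integrable local resolvent for `T`:
`‖(T - N)^n x‖^(1/n) → 0`. If all vectors have log-integrable local resolvents for `T`, then `T - N` is
quasinilpotent: `T` is a spectral operator in the sense of Dunford, with a normal scalar part. So for these
operators the reductive operator problem is a question about the quasinilpotent part.
(2) If all vectors have log-integrable local resolvents for `T` and the self-commutator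
`T*T - TT*` is compact, then `T` is normal.
(3) If the vectors with log-integrable local resolvents for `T` span a dense subspace and `T` is
hyponormal, then `T` is normal.
(4) All vectors have log-integrable local resolvents for `T` and its adjoint if the spectrum is a null
set and `log⁺ ‖(z - T)⁻¹‖` is integrable on a neighbourhood of it. So every reductive operator of this
kind is the sum of a normal operator `N` in its bicommutant and a quasinilpotent operator.

The starting result `ReductiveLocalResolvents` supposes that a power `‖f‖ ^ σ` is locally integrable and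
concludes that `T` is normal; the starting result `ReductiveLogIntegrable` supposes (4) and that `T*T - TT*`
is compact. Under the weaker assumption of the first kind, and without compactness, the quasinilpotent part
appears.

Proof. The library (`Pool.Agent.TH908.RD`, used here with the exponent `σ = 0`) gives the spectral families
`P_s`, `P'_s` of the real and the imaginary part: the projections onto the closed spans of the vectors with
local spectrum in the half-planes `re z ≤ s`, `im z ≤ s`; they commute with `T` and `T*`, and
`(P_s - P_(s-ε)) (P'_t - P'_(t-ε)) x` has its local spectrum in a disc of radius `2 ε`. They commute with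
the whole commutant, as the complement of a hyperinvariant subspace of a reductive operator is
hyperinvariant (helper706, `W706.HIR`). Let `N = A + i B` be the normal operator with these spectral
families. The local resolvents are glued to a holomorphic function off the disc, and Cauchy's formula
gives `‖(T - c)^n E x‖ ≤ C (4 ε)^n` for the part of `x` in a box, hence `‖(T - N)^n x‖ ≤ C' (6 ε)^n`. If this
holds for all vectors, the uniform boundedness principle gives the norm estimate. (2) By the minimal
dimension argument of helper706 it is enough to consider the restrictions of `T` to hyperinvariant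
subspaces without hyperinvariant subspaces; there `A` and `B` are scalars, so `T` is quasinilpotent up to a
scalar, and compact because it is essentially normal, and Lomonosov's theorem applies. (3) `T - N` has the
same self-commutator as `T`, so it is hyponormal, and a hyponormal operator vanishes at every vector where
it is locally quasinilpotent.
-/

set_option autoImplicit false

open MeasureTheory Metric Filter Topology

namespace Pool.Agent.Results.MP_49c4d9_an.ReductiveSpectral

section Defs

variable {H : Type} [NormedAddCommGroup H] [InnerProductSpace ℂ H] [CompleteSpace H]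

/-- `T` is reductive: every closed invariant subspace is invariant under the adjoint. -/
def Reductive (T : H →L[ℂ] H) : Prop :=
  ∀ V : Submodule ℂ H, IsClosed (V : Set H) → (∀ x ∈ V, T x ∈ V) →
    ∀ x ∈ V, ContinuousLinearMap.adjoint T x ∈ V

/-- The vector `x` has a log-integrable local resolvent for `T`: a measurable function `f` with
`(z - T) f z = x` for almost all complex `z`, and `log⁺ ‖f‖` integrable (area) on every disc. -/
def HasLogResolvent (T : H →L[ℂ] H) (x : H) : Prop :=
  ∃ f : ℂ → H, AEStronglyMeasurable f volume ∧
    (∀ᵐ z ∂(volume : Measure ℂ), z • f z - T (f z) = x) ∧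
    ∀ R : ℝ, IntegrableOn (fun z => Real.posLog ‖f z‖) (ball (0 : ℂ) R)

/-- The closed span of the vectors with log-integrable local resolvents is the whole space. -/
def DenselyLogResolvent (T : H →L[ℂ] H) : Prop :=
  (Submodule.span ℂ {x : H | HasLogResolvent T x}).topologicalClosure = ⊤

/-- `Q` is locally quasinilpotent at `x`. -/
def LocallyQuasinilpotent (Q : H →L[ℂ] H) (x : H) : Prop :=
  Tendsto (fun n : ℕ => ‖(Q ^ n) x‖ ^ (1 / (n : ℝ))) atTop (𝓝 0)

/-- `Q` is quasinilpotent: the norms of the powers satisfy `‖Q ^ n‖ ^ (1 / n) → 0`. -/
def Quasinilpotent (Q : H →L[ℂ] H) : Prop :=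
  Tendsto (fun n : ℕ => ‖Q ^ n‖ ^ (1 / (n : ℝ))) atTop (𝓝 0)

/-- `T` is hyponormal. -/
def Hyponormal (T : H →L[ℂ] H) : Prop := ∀ x, ‖ContinuousLinearMap.adjoint T x‖ ≤ ‖T x‖

/-- `N` belongs to the bicommutant of `T`. -/
def InBicommutant (T N : H →L[ℂ] H) : Prop := ∀ S : H →L[ℂ] H, S * T = T * S → S * N = N * S

/-- The self-commutator of `T` is compact. -/
def EssentiallyNormal (T : H →L[ℂ] H) : Prop :=
  IsCompactOperator (ContinuousLinearMap.adjoint T * T - T * ContinuousLinearMap.adjoint T :
    H →L[ℂ] H)

/-- The spectrum is a null set and `log⁺ ‖(z - T)⁻¹‖` is integrable on a neighbourhood of it. -/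
def LogIntegrableResolvent (T : H →L[ℂ] H) : Prop :=
  volume (spectrum ℂ T) = 0 ∧ ∃ U : Set ℂ, IsOpen U ∧ spectrum ℂ T ⊆ U ∧
    IntegrableOn (fun z : ℂ => Real.posLog ‖resolvent T z‖) U

end Defs

theorem good_of {H : Type} [NormedAddCommGroup H] [InnerProductSpace ℂ H] [CompleteSpace H]
    {T : H →L[ℂ] H} {x : H} (hx : HasLogResolvent T x) : Pool.Agent.TH908.RD.Good T 0 x := by
  obtain ⟨f, h1, h2, h3⟩ := hx
  intro R
  refine ⟨f, h1.restrict, ae_restrict_of_ae h2, h3 R, ?_⟩
  simp only [ENNReal.rpow_zero]
  rw [lintegral_const, one_mul, Measure.restrict_apply_univ]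
  exact measure_ball_lt_top.ne

theorem dense_of {H : Type} [NormedAddCommGroup H] [InnerProductSpace ℂ H] [CompleteSpace H]
    {T : H →L[ℂ] H} (h : DenselyLogResolvent T) :
    (Submodule.span ℂ {x : H | Pool.Agent.TH908.RD.Good T 0 x}).topologicalClosure = ⊤ := by
  rw [eq_top_iff, ← h]
  exact Submodule.topologicalClosure_mono (Submodule.span_mono fun x hx => good_of hx)

theorem normal_of {H : Type} [NormedAddCommGroup H] [InnerProductSpace ℂ H] [CompleteSpace H]
    {A B : H →L[ℂ] H} (hA : ContinuousLinearMap.adjoint A = A)
    (hB : ContinuousLinearMap.adjoint B = B) (hAB : A * B = B * A) :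
    IsStarNormal (A + Complex.I • B) := by
  constructor
  have h1 : star (A + Complex.I • B) = A - Complex.I • B := by
    rw [star_add, star_smul, ContinuousLinearMap.star_eq_adjoint,
      ContinuousLinearMap.star_eq_adjoint, hA, hB, show star Complex.I = -Complex.I from
      Complex.conj_I, neg_smul, sub_eq_add_neg]
  rw [h1, Commute, SemiconjBy]
  simp only [sub_mul, mul_sub, add_mul, mul_add, smul_mul_assoc, mul_smul_comm, hAB, smul_sub,
    smul_add]
  abel

/-- (1), (2), (3) -/
theorem main {H : Type} [NormedAddCommGroup H] [InnerProductSpace ℂ H] [CompleteSpace H]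
    (T : H →L[ℂ] H) (hred : Reductive T)
    (hadj : DenselyLogResolvent (ContinuousLinearMap.adjoint T)) :
    (∃ N : H →L[ℂ] H, IsStarNormal N ∧ InBicommutant T N ∧
      (∀ x, HasLogResolvent T x → LocallyQuasinilpotent (T - N) x) ∧
      ((∀ x, HasLogResolvent T x) → Quasinilpotent (T - N))) ∧
    ((∀ x, HasLogResolvent T x) → EssentiallyNormal T → IsStarNormal T) ∧
    (DenselyLogResolvent T → Hyponormal T → IsStarNormal T) := by
  obtain ⟨A, B, hA, hB, hAB, hcomm, hQ⟩ := Pool.Agent.L0h90.RS.dec hred (dense_of hadj)
  have hN := normal_of hA hB hAB
  have hsc := Pool.Agent.L0h90.RS.sc_sub hA hB hAB (hcomm T rfl).1 (hcomm T rfl).2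
  refine ⟨⟨A + Complex.I • B, hN, ?_, ?_, ?_⟩, ?_, ?_⟩
  · intro S hS
    rw [mul_add, add_mul, mul_smul_comm, smul_mul_assoc, (hcomm S hS).1, (hcomm S hS).2]
  · intro x hx
    exact Pool.Agent.L0h90.RS.tend_of _ (fun n => norm_nonneg _) (hQ x (good_of hx))
  · intro hall
    exact Pool.Agent.L0h90.RS.tend_of _ (fun n => norm_nonneg _)
      (Pool.Agent.L0h90.RS.small_of _ fun x => hQ x (good_of (hall x)))
  · intro hall hc
    have h := Pool.Agent.L0h90.RS.essn hred hc hA hB hcomm fun x => hQ x (good_of (hall x))
    constructor
    rw [Commute, SemiconjBy, ContinuousLinearMap.star_eq_adjoint]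
    exact sub_eq_zero.1 h
  · intro hd hh
    have hQh : Pool.Agent.L0h90.RS.Hypo (T - (A + Complex.I • B)) :=
      Pool.Agent.L0h90.RS.hypo_of_sc hsc hh
    have h0 : T - (A + Complex.I • B) = 0 := by
      ext x
      have hcl : IsClosed ((LinearMap.ker ((T - (A + Complex.I • B) : H →L[ℂ] H) : H →ₗ[ℂ] H) :
          Submodule ℂ H) : Set H) := ContinuousLinearMap.isClosed_ker _
      have hle : (Submodule.span ℂ {x : H | HasLogResolvent T x}).topologicalClosure ≤
          LinearMap.ker ((T - (A + Complex.I • B) : H →L[ℂ] H) : H →ₗ[ℂ] H) :=
        Submodule.topologicalClosure_minimal _ (Submodule.span_le.2 fun y hy =>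
          Pool.Agent.L0h90.RS.hypo_zero hQh (hQ y (good_of hy))) hcl
      rw [hd] at hle
      exact hle Submodule.mem_top
    rw [sub_eq_zero.1 h0]
    exact hN

/-- **Theorem.** (1) to (3): Let `T` be reductive, and let the vectors with log-integrable local
resolvents for the adjoint of `T` span a dense subspace. Then there is a normal operator `N` in the
bicommutant of `T` such that `T - N` is locally quasinilpotent at all vectors with log-integrable local
resolvents for `T`, and quasinilpotent if these are all vectors; in the last case `T` is normal if
`T*T - TT*` is compact. If `T` is hyponormal and the vectors with log-integrable local resolvents span a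
dense subspace, then `T` is normal. (4) If the spectrum of `T` is a null set and `log⁺ ‖(z - T)⁻¹‖` is
integrable on a neighbourhood of it, all vectors have log-integrable local resolvents for `T` and its
adjoint; if moreover `T` is reductive, it is the sum of a normal operator `N` in its bicommutant and a
quasinilpotent operator. -/
theorem result (H : Type) [NormedAddCommGroup H] [InnerProductSpace ℂ H] [CompleteSpace H]
    (T : H →L[ℂ] H) :
    (Reductive T → DenselyLogResolvent (ContinuousLinearMap.adjoint T) →
      (∃ N : H →L[ℂ] H, IsStarNormal N ∧ InBicommutant T N ∧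
        (∀ x, HasLogResolvent T x → LocallyQuasinilpotent (T - N) x) ∧
        ((∀ x, HasLogResolvent T x) → Quasinilpotent (T - N))) ∧
      ((∀ x, HasLogResolvent T x) → EssentiallyNormal T → IsStarNormal T) ∧
      (DenselyLogResolvent T → Hyponormal T → IsStarNormal T)) ∧
    (LogIntegrableResolvent T →
      (∀ x, HasLogResolvent T x) ∧ (∀ x, HasLogResolvent (ContinuousLinearMap.adjoint T) x) ∧
      (Reductive T → ∃ N : H →L[ℂ] H, IsStarNormal N ∧ InBicommutant T N ∧
        Quasinilpotent (T - N))) := by
  refine ⟨fun hred hadj => main T hred hadj, ?_⟩
  rintro ⟨h0, U, hU, hsU, hI⟩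
  have h1 : ∀ x, HasLogResolvent T x := fun x =>
    Pool.Agent.L0h90.RS.good_res T U hU hsU h0 hI x
  have h2 : ∀ x, HasLogResolvent (ContinuousLinearMap.adjoint T) x := fun x =>
    Pool.Agent.L0h90.RS.good_res_adj T U hU hsU h0 hI x
  refine ⟨h1, h2, fun hred => ?_⟩
  have hd : DenselyLogResolvent (ContinuousLinearMap.adjoint T) := by
    unfold DenselyLogResolvent
    have h3 : {x : H | HasLogResolvent (ContinuousLinearMap.adjoint T) x} = Set.univ := by
      ext x
      simp [h2 x]
    rw [h3, Submodule.span_univ]
    exact top_unique (Submodule.le_topologicalClosure _)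
  obtain ⟨⟨N, hN1, hN2, -, hN3⟩, -, -⟩ := main T hred hd
  exact ⟨N, hN1, hN2, hN3 h1⟩

end Pool.Agent.Results.MP_49c4d9_an.ReductiveSpectral
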