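import Pool.Agent.L0h90.SO.Line
import Pool.Agent.R276.TR.Calc
import Pool.Agent.R276.TR.Eig
import Pool.Agent.R276.TR.Qnt
import Pool.Agent.R276.TR.Cpt

/-!
# MP_49c4d9_an: the reductive Toeplitz operators with Hölder symbols

For a bounded operator `T` with the Toeplitz matrix of a Hölder continuous symbol `φ` of exponent greater than
one half the following are equivalent: `T` is reductive; all closed hyperinvariant subspaces of `T` are
reducing; `T` is normal; the values of `φ` lie on a line. In particular, if the curve `φ` is not contained in a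
line, then `T` has a closed hyperinvariant subspace which is not reducing. The starting result
`ReductiveToeplitz` of this page is: `T` reductive implies `T` normal.

Proof. Let all hyperinvariant subspaces of `T` be reducing. Then eigenvectors of `T` are eigenvectors of the
adjoint and conversely: the kernel of `T - z` and the closure of its range are hyperinvariant. For `z` off
the curve there are no common eigenvectors (starting library `R276.TR`), so the winding number of `φ - z` is
zero and the Wiener-Hopf factorisation bounds the inverse of `T - z`: the spectrum is a null set with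
locally log-integrable resolvent. The self-commutator is compact, and the theorem of the hand-in
`TotallyDisconnectedPart` shows that `T` is normal. If `T` is normal with matrix `a (i - j)`, comparing
`⟪T e_(i+1), T e_(j+1)⟫ - ⟪T e_i, T e_j⟫` with the same for the adjoint gives
`conj a(-m) a(-n) = a(m) conj a(n)` for `m, n ≥ 1`, so `a(-n) = c conj a(n)` with `|c| = 1` (Brown, Halmos), and
`(φ - a(0)) / √c` is real. Finally, if the values lie on a line, `T = α + β A` with `A` self-adjoint, so `T` is
reductive.
-/

set_option autoImplicit false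

open scoped NNReal InnerProductSpace

namespace Pool.Agent.Results.MP_49c4d9_an.ReductiveToeplitzOperators

section Defs

variable {H : Type} [NormedAddCommGroup H] [InnerProductSpace ℂ H] [CompleteSpace H]

/-- Every closed subspace which is invariant under `T` is invariant under the adjoint of `T`. -/
def IsReductive (T : H →L[ℂ] H) : Prop :=
  ∀ V : Submodule ℂ H, IsClosed (V : Set H) → (∀ x ∈ V, T x ∈ V) →
    ∀ x ∈ V, ContinuousLinearMap.adjoint T x ∈ V

/-- Every closed subspace which is invariant under all operators commuting with `T` is invariant under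
the adjoint of `T`. -/
def HyperinvariantsReduce (T : H →L[ℂ] H) : Prop :=
  ∀ V : Submodule ℂ H, IsClosed (V : Set H) →
    (∀ Q : H →L[ℂ] H, Q * T = T * Q → ∀ x ∈ V, Q x ∈ V) →
    ∀ x ∈ V, ContinuousLinearMap.adjoint T x ∈ V

/-- `T` has the Toeplitz matrix of the symbol `φ` with respect to the orthonormal basis `e`: the entry at
`(i, j)` is the Fourier coefficient of `φ` of index `i - j`. -/
def HasToeplitzMatrix (e : HilbertBasis ℕ ℂ H) (φ : UnitAddCircle → ℂ) (T : H →L[ℂ] H) : Prop :=
  ∀ i j : ℕ, ⟪e i, T (e j)⟫_ℂ = fourierCoeff φ ((i : ℤ) - j)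

/-- The values of `φ` lie on a line of the complex plane. -/
def OnLine (φ : UnitAddCircle → ℂ) : Prop :=
  ∃ α β : ℂ, β ≠ 0 ∧ ∀ t, ∃ r : ℝ, φ t = α + r * β

end Defs

/-- **Theorem.** Let `T` be a bounded operator with the Toeplitz matrix of a Hölder continuous symbol `φ` of
exponent greater than `1/2`. The following are equivalent: `T` is reductive; all closed hyperinvariant
subspaces of `T` are reducing; `T` is normal; the values of `φ` lie on a line. -/
theorem result (H : Type) [NormedAddCommGroup H] [InnerProductSpace ℂ H] [CompleteSpace H]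
    (e : HilbertBasis ℕ ℂ H) (φ : UnitAddCircle → ℂ) (C α : ℝ≥0) (hα : 1 / 2 < α)
    (hφ : HolderWith C α φ) (T : H →L[ℂ] H) (hT : HasToeplitzMatrix e φ T) :
    (IsReductive T ↔ OnLine φ) ∧ (HyperinvariantsReduce T ↔ OnLine φ) ∧
      (IsStarNormal T ↔ OnLine φ) := by
  have hα0 : 0 < α := lt_trans (by norm_num) hα
  obtain ⟨L, q, hL, hq, hq2, hHD⟩ := Pool.Agent.Y283.TO.HD_of_holder
    ⟨φ, hφ.continuous hα0⟩ C α hα hφ
  have h1 : HyperinvariantsReduce T → ContinuousLinearMap.adjoint T * T =
      T * ContinuousLinearMap.adjoint T := by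
    intro hred
    have h := Pool.Agent.L0h90.SO.toeplitz Pool.Agent.R276.TR.Calc.main
      Pool.Agent.R276.TR.Cpt.main Pool.Agent.R276.TR.Eig.main Pool.Agent.R276.TR.Qnt.main e
      ⟨φ, hφ.continuous hα0⟩ L q hL hq hq2 hHD T hT fun V hV => hred V hV.1 hV.2
    exact sub_eq_zero.1 h
  have h2 : ContinuousLinearMap.adjoint T * T = T * ContinuousLinearMap.adjoint T → OnLine φ :=
    fun h => Pool.Agent.L0h90.SO.line_of_normal e T ⟨φ, hφ.continuous hα0⟩ hT h
  have h3 : OnLine φ → IsReductive T := fun h V _ hV =>
    Pool.Agent.L0h90.SO.reductive_of_line e T ⟨φ, hφ.continuous hα0⟩ hT h V hV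
  have h4 : IsReductive T → HyperinvariantsReduce T := fun h V hV hQ =>
    h V hV (hQ T rfl)
  have h5 : IsStarNormal T ↔ ContinuousLinearMap.adjoint T * T =
      T * ContinuousLinearMap.adjoint T := by
    constructor
    · intro h
      have h6 := h.star_comm_self
      rw [Commute, SemiconjBy, ContinuousLinearMap.star_eq_adjoint] at h6
      exact h6
    · intro h
      constructor
      rw [Commute, SemiconjBy, ContinuousLinearMap.star_eq_adjoint]
      exact h
  exact ⟨⟨fun h => h2 (h1 (h4 h)), h3⟩, ⟨fun h => h2 (h1 h), fun h => h4 (h3 h)⟩,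
    ⟨fun h => h2 (h5.1 h), fun h => h5.2 (h1 (h4 (h3 h)))⟩⟩

end Pool.Agent.Results.MP_49c4d9_an.ReductiveToeplitzOperators
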