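import Pool.Agent.L0h90.SO.Fin

/-!
# MP_49c4d9_an: reductive singular integral operators with Hölder coefficients are normal

Let `H` be the Hilbert space `L²` of the circle (also with a continuous positive weight), `P` the Riesz
projection onto the nonnegative frequencies and `a`, `b` Hölder continuous functions with exponents
greater than one half. If all closed hyperinvariant subspaces of the singular integral operator
`T = a P + b (1 - P)`, that is `(a + b) / 2 + ((a - b) / 2) S` with the Hilbert transform `S = 2 P - 1`, are reducing,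
then `T` is normal. In particular `T` is normal if it is reductive.

Proof. (1) If all hyperinvariant subspaces of `T` are reducing, then the eigenvectors of `T` and of `T*` are the
same and eigenvectors for different eigenvalues are orthogonal, so there are only countably many
eigenvalues. (2) Let `z` be off the curves `a(𝕋)` and `b(𝕋)`. In the factorisation
`(a - z) / (b - z) = ζ^k exp u exp v` of the starting library (`R276.SI`) the number `z` is an eigenvalue of `T` if
`k < 0` and of the transpose if `k > 0`; so `k = 0` except for countably many `z`, and then the inverse of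
`T - z` is explicit and its norm is bounded by the estimates of `Y283.TO`, which are locally
log-integrable in `z`. So the spectrum is a null set and `log⁺ ‖(z - T)⁻¹‖` is integrable. (3) The
commutators of `P` with multiplications by continuous functions are compact, so `T*T - TT*` is compact
(`P - P*` is compact; for the weight `w` it is the commutator `w⁻¹ (w P - P w)`). (4) The theorem of the hand-in
`TotallyDisconnectedPart` (with empty bad part) applies: `T` is normal.
-/

set_option autoImplicit false

open scoped NNReal InnerProductSpace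

namespace Pool.Agent.Results.MP_49c4d9_an.SingularIntegralOperators

section Defs

variable {H : Type} [NormedAddCommGroup H] [InnerProductSpace ℂ H] [CompleteSpace H]

/-- Every closed subspace which is invariant under all operators commuting with `T` is invariant under
the adjoint of `T`. -/
def HyperinvariantsReduce (T : H →L[ℂ] H) : Prop :=
  ∀ V : Submodule ℂ H, IsClosed (V : Set H) →
    (∀ Q : H →L[ℂ] H, Q * T = T * Q → ∀ x ∈ V, Q x ∈ V) →
    ∀ x ∈ V, ContinuousLinearMap.adjoint T x ∈ V

/-- `H` is a Hilbert space of functions on the circle `ℝ/ℤ`: `e n` are the exponentials `exp (2πint)`, their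
span is dense, and `M a` is the multiplication by the continuous function `a`, with adjoint the
multiplication by the conjugate of `a`. -/
structure CircleSpace (e : ℤ → H) (M : C(UnitAddCircle, ℂ) → (H →L[ℂ] H)) : Prop where
  dense : Dense (Submodule.span ℂ (Set.range e) : Set H)
  add : ∀ a b, M (a + b) = M a + M b
  smul : ∀ (c : ℂ) (a : C(UnitAddCircle, ℂ)), M (c • a) = c • M a
  one : M 1 = 1
  mul : ∀ a b, M (a * b) = M a * M b
  bounded : ∃ K : ℝ, ∀ a, ‖M a‖ ≤ K * ‖a‖
  adjoint : ∀ a, ContinuousLinearMap.adjoint (M a) = M (star a)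
  shift : ∀ m n : ℤ, M (fourier m) (e n) = e (n + m)

/-- `ε₀` is the mean, and `P` is the Riesz projection, the bounded operator with `P (e n) = e n` for `n ≥ 0` and
`P (e n) = 0` for `n < 0`; `P` is self-adjoint up to a compact operator. -/
structure RieszProjection (e : ℤ → H) (ε₀ : H →L[ℂ] ℂ) (P : H →L[ℂ] H) : Prop where
  mean : ∀ n : ℤ, ε₀ (e n) = if n = 0 then 1 else 0
  riesz : ∀ n : ℤ, P (e n) = if 0 ≤ n then e n else 0
  adjoint : IsCompactOperator (P - ContinuousLinearMap.adjoint P : H →L[ℂ] H)

/-- the function is Hölder continuous with some exponent greater than one half -/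
def HolderHalf (a : UnitAddCircle → ℂ) : Prop :=
  ∃ C α : ℝ≥0, 1 / 2 < α ∧ HolderWith C α a

/-- the singular integral operator `f ↦ a (P f) + b (f - P f)` -/
noncomputable def sio (M : C(UnitAddCircle, ℂ) → (H →L[ℂ] H)) (P : H →L[ℂ] H)
    (a b : C(UnitAddCircle, ℂ)) : H →L[ℂ] H :=
  M a * P + M b * (1 - P)

end Defs

theorem HD_mono (f : ℝ → ℂ) (L q L' q' : ℝ) (hL : 0 < L) (hq : 0 ≤ q) (hL' : L ≤ L') (hq' : q ≤ q')
    (h : Pool.Agent.Y283.TO.HD f L q) : Pool.Agent.Y283.TO.HD f L' q' := by
  intro n s t hst
  refine (h n s t hst).trans ?_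
  have h1 : q ^ n ≤ q' ^ n := pow_le_pow_left₀ hq hq' n
  have h2 : 0 ≤ q ^ n := pow_nonneg hq n
  exact mul_le_mul hL' h1 h2 (hL.le.trans hL')

theorem normal_of_sc {H : Type} [NormedAddCommGroup H] [InnerProductSpace ℂ H] [CompleteSpace H]
    {T : H →L[ℂ] H} (h : Pool.Agent.W706.HIR.sc T = 0) : IsStarNormal T := by
  constructor
  rw [Commute, SemiconjBy, ContinuousLinearMap.star_eq_adjoint]
  exact sub_eq_zero.1 h

/-- **Theorem.** Let `a` and `b` be Hölder continuous functions on the circle with exponents greater than
`1/2`, and let `H` be a Hilbert space of functions on the circle as in `CircleSpace`, `RieszProjection`. If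
all closed hyperinvariant subspaces of the singular integral operator `f ↦ a (P f) + b (f - P f)` are
reducing, for instance if it is reductive, then it is normal. -/
theorem result (H : Type) [NormedAddCommGroup H] [InnerProductSpace ℂ H] [CompleteSpace H]
    (e : ℤ → H) (ε₀ : H →L[ℂ] ℂ) (M : C(UnitAddCircle, ℂ) → (H →L[ℂ] H)) (P : H →L[ℂ] H)
    (hH : CircleSpace e M) (hR : RieszProjection e ε₀ P) (a b : C(UnitAddCircle, ℂ))
    (ha : HolderHalf a) (hb : HolderHalf b) (hred : HyperinvariantsReduce (sio M P a b)) :
    IsStarNormal (sio M P a b) := by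
  obtain ⟨Ca, α, hα, ha⟩ := ha
  obtain ⟨Cb, β, hβ, hb⟩ := hb
  obtain ⟨L, q, hL, hq, hq2, hHD⟩ := Pool.Agent.Y283.TO.HD_of_holder a Ca α hα ha
  obtain ⟨L', q', hL', hq', hq2', hHD'⟩ := Pool.Agent.Y283.TO.HD_of_holder b Cb β hβ hb
  have h : Pool.Agent.R276.SI.SIO e ε₀ M P := by
    refine ⟨hH.dense, hH.add, hH.smul, hH.one, hH.mul, ?_, hH.shift, hR.riesz, hR.mean⟩
    obtain ⟨K, hK⟩ := hH.bounded
    exact ⟨max K 0, le_max_right _ _, fun f =>
      (hK f).trans (mul_le_mul_of_nonneg_right (le_max_left _ _) (norm_nonneg _))⟩
  refine normal_of_sc (Pool.Agent.L0h90.SO.main Pool.Agent.R276.SI.Alg.main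
    Pool.Agent.R276.SI.Fac.main h hH.adjoint hR.adjoint a b (max L L') (max q q')
    (lt_max_of_lt_left hL) (le_max_of_le_left hq) ?_ ?_ ?_ fun V hV => hred V hV.1 hV.2)
  · rcases max_choice q q' with h1 | h1
    · rw [h1]; exact hq2
    · rw [h1]; exact hq2'
  · exact HD_mono _ L q _ _ hL (by linarith) (le_max_left _ _) (le_max_left _ _) hHD
  · exact HD_mono _ L' q' _ _ hL' (by linarith) (le_max_right _ _) (le_max_right _ _) hHD'

end Pool.Agent.Results.MP_49c4d9_an.SingularIntegralOperators
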