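import Pool.Agent.L0h90.RT.Main

/-!
# MP_49c4d9_an: essentially normal operators with reducing hyperinvariant subspaces and totally
# disconnected singular set are normal

Let `T` be a bounded operator on a complex Hilbert space with compact self-commutator `T*T - TT*`, all of
whose closed hyperinvariant subspaces are reducing (for instance a reductive operator). A point `a` is
tame if on some disc around `a`, for every vector `x`, the equations `(z - T) f z = x` and
`(z - T)* g z = x` have measurable solutions (for almost all `z`) with `log⁺ ‖f‖`, `log⁺ ‖g‖` integrable;
this is the case if the spectrum is a null set near `a` and `log⁺ ‖(z - T)⁻¹‖` is integrable near `a`. If the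
set of the points `a` for which the range of `a - T` is not closed (a subset of the essential spectrum)
and which are not tame is totally disconnected, then `T` is normal.

In particular `T` is normal if its essential spectrum is totally disconnected; no condition on the
resolvent is needed then. The starting result `ReductiveLogIntegrable` of this page is: `T` reductive,
the spectrum a null set and `log⁺ ‖(z - T)⁻¹‖` integrable on a neighbourhood of the whole spectrum.

Proof. If `T` is not normal, there is a reducing subspace `V` such that `S = T|V` is not scalar and has no
nontrivial hyperinvariant subspace (the minimal dimension argument of helper706 in the form `N300.RL.Hyp`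
for hyperinvariant subspaces, starting library). By the Riesz decomposition the spectrum `K` of `S` is
connected. `S` and `S*` have no eigenvectors, so at the points `a` of `K` the range of `a - S` is dense and
not closed, and the range of `a - T` is not closed either. If `K` is one point `c`, then `S - c` is
quasinilpotent with compact self-commutator, hence compact, and Lomonosov's theorem applies. Otherwise
`K` is a perfect set which is not contained in the totally disconnected set, so there is a tame point in
`K`, and as the set of the tame points is open there are two tame points in `K`. The equations pass to `V`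
by projection. There are vectors not in the range of `a₁ - S` and of `(a₂ - S)*`, and the theorem on
measurable local resolvents of the starting library (`W610.HY`, outer functions on two circles) gives a
hyperinvariant subspace, a contradiction.

From the starting library: `N300.RL.Hyp`, `W706.HIR`, `W610.HY`, `W577.HI.G1`, `R283.Riesz`, `Y283.NK`.
-/

set_option autoImplicit false

open MeasureTheory Metric
open scoped ComplexConjugate

namespace Pool.Agent.Results.MP_49c4d9_an.TotallyDisconnectedPart

section Defs

variable {H : Type} [NormedAddCommGroup H] [InnerProductSpace ℂ H]

/-- Every closed subspace which is invariant under all operators commuting with `T` is invariant under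
the adjoint of `T`. -/
def HyperinvariantsReduce [CompleteSpace H] (T : H →L[ℂ] H) : Prop :=
  ∀ V : Submodule ℂ H, IsClosed (V : Set H) →
    (∀ Q : H →L[ℂ] H, Q * T = T * Q → ∀ x ∈ V, Q x ∈ V) →
    ∀ x ∈ V, ContinuousLinearMap.adjoint T x ∈ V

/-- The range of `a - T` is closed. -/
def ClosedRange (T : H →L[ℂ] H) (a : ℂ) : Prop :=
  IsClosed (Set.range fun x : H => a • x - T x)

/-- On some disc around `a`, for every vector `x`, the equations `(z - T) f z = x` and `(z - T)* g z = x` have
measurable solutions for almost every `z`, with integrable `log⁺ ‖f‖` and `log⁺ ‖g‖`. -/
def Tame [CompleteSpace H] (T : H →L[ℂ] H) (a : ℂ) : Prop :=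
  ∃ r : ℝ, 0 < r ∧ ∀ x : H,
    (∃ f : ℂ → H, AEStronglyMeasurable f (volume.restrict (ball a r)) ∧
      (∀ᵐ z ∂((volume : Measure ℂ).restrict (ball a r)), z • f z - T (f z) = x) ∧
      IntegrableOn (fun z => Real.posLog ‖f z‖) (ball a r)) ∧
    ∃ g : ℂ → H, AEStronglyMeasurable g (volume.restrict (ball a r)) ∧
      (∀ᵐ z ∂((volume : Measure ℂ).restrict (ball a r)),
        conj z • g z - ContinuousLinearMap.adjoint T (g z) = x) ∧
      IntegrableOn (fun z => Real.posLog ‖g z‖) (ball a r)

/-- On some disc around `a` the spectrum of `T` is a null set and `log⁺ ‖(z - T)⁻¹‖` is integrable. -/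
def LogIntegrableResolvent (T : H →L[ℂ] H) (a : ℂ) : Prop :=
  ∃ r : ℝ, 0 < r ∧ volume (spectrum ℂ T ∩ ball a r) = 0 ∧
    IntegrableOn (fun z : ℂ => Real.posLog ‖resolvent T z‖) (ball a r)

end Defs

/-- **Theorem.** Let `T*T - TT*` be compact and let all closed hyperinvariant subspaces of `T` be reducing
(for instance, let `T` be reductive). If the set of the points `a` for which the range of `a - T` is not
closed and which are not tame is totally disconnected, then `T` is normal. In particular, `T` is normal
if the set of the points `a` for which the range of `a - T` is not closed and near which the resolvent is not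
log-integrable is totally disconnected. -/
theorem result (H : Type) [NormedAddCommGroup H] [InnerProductSpace ℂ H] [CompleteSpace H]
    (T : H →L[ℂ] H) (hred : HyperinvariantsReduce T)
    (hc : IsCompactOperator (ContinuousLinearMap.adjoint T * T -
      T * ContinuousLinearMap.adjoint T : H →L[ℂ] H)) :
    (IsTotallyDisconnected {a : ℂ | ¬ ClosedRange T a ∧ ¬ Tame T a} → IsStarNormal T) ∧
    (IsTotallyDisconnected {a : ℂ | ¬ ClosedRange T a ∧ ¬ LogIntegrableResolvent T a} →
      IsStarNormal T) := by
  have key : IsTotallyDisconnected {a : ℂ | ¬ ClosedRange T a ∧ ¬ Tame T a} → IsStarNormal T := by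
    intro h
    have h0 := Pool.Agent.L0h90.RT.main T (fun V hV => hred V hV.1 hV.2) hc h
    constructor
    rw [Commute, SemiconjBy, ContinuousLinearMap.star_eq_adjoint]
    exact sub_eq_zero.1 h0
  refine ⟨key, fun h => key ?_⟩
  intro t ht hp
  refine h t (fun a ha => ⟨(ht ha).1, fun hl => (ht ha).2 ?_⟩) hp
  obtain ⟨r, hr, h1, h2⟩ := hl
  exact Pool.Agent.L0h90.RT.tame_of_resolvent T a r hr h1 h2

end Pool.Agent.Results.MP_49c4d9_an.TotallyDisconnectedPart
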